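import Pool.Agent.Lib.MP_b6945b_al.Rl.GKR
import Pool.Agent.Lib.MP_b6945b_al.Rl.GSyl
import Pool.Agent.Lib.MP_b6945b_al.Kx.ZSum

set_option autoImplicit false

namespace Pool.Agent.Results.MP_b6945b_al.FreeOnSubgroup

open Pool.Agent.Lib.MP_b6945b_al

/-- The blockwise Knörr–Robinson alternating sum vanishes for every block with a nontrivial abelian
defect group `D` whose inertial quotient acts freely on the nontrivial elements of some nontrivial
invariant subgroup of `D`.  The sum runs over all chains `σ` of nontrivial `p`-subgroups, the empty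
chain included; the factor `|G_σ|` makes it `|G|` times the sum over `G`-orbits of chains. -/
theorem result :
    ∀ (p : ℕ), p.Prime → ∀ (G : Type) [Group G] [Finite G]
      (M : Ideal (integralClosure ℤ ℂ)), M.IsMaximal → (p : integralClosure ℤ ℂ) ∈ M →
      ∀ (χ : G → ℂ), IsIrrChar χ →
      ∀ (D : Subgroup G), IsDefectGroup p M χ D → D ≠ ⊥ → (∀ x ∈ D, ∀ y ∈ D, x * y = y * x) →
      RelInertia M χ D →
      ∑ᶠ (σ : Finset (Subgroup G))
        (_ : IsChain (· ≤ ·) (σ : Set (Subgroup G)) ∧ ∀ P ∈ σ, IsPGroup p P ∧ P ≠ ⊥),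
        (-1 : ℤ) ^ σ.card *
          ((Nat.card (⨅ P ∈ σ, Subgroup.normalizer (P : Set G) : Subgroup G) : ℤ) *
            kInd M χ (⨅ P ∈ σ, Subgroup.normalizer (P : Set G))) = 0 :=
  fun p hp G _ _ M hM hpM χ hχ D hD hD0 hc hF =>
    St.kr_sum_rel p hp G M hM hpM χ hχ D hD hD0 hc hF

/-- The case of a cyclic inertial quotient of prime power order. -/
theorem cyclic_inertia :
    ∀ (p : ℕ), p.Prime → ∀ (G : Type) [Group G] [Finite G]
      (M : Ideal (integralClosure ℤ ℂ)), M.IsMaximal → (p : integralClosure ℤ ℂ) ∈ M →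
      ∀ (χ : G → ℂ), IsIrrChar χ →
      ∀ (D : Subgroup G), IsDefectGroup p M χ D → D ≠ ⊥ → (∀ x ∈ D, ∀ y ∈ D, x * y = y * x) →
      (∀ ψ : Subgroup.centralizer (D : Set G) → ℂ, IsIrrChar ψ →
        (∀ x : G, InIdeal M (omega ψ {h | IsConj x (h : G)} - omega χ {g | IsConj x g})) →
        ∃ (s : G) (q k : ℕ), q.Prime ∧ q ≠ p ∧ s ∈ Subgroup.normalizer (D : Set G) ∧
          s ^ q ^ k ∈ Subgroup.centralizer (D : Set G) ∧ ∀ t, Inert M D ψ t →
            ∃ i : ℕ, (s ^ i)⁻¹ * t ∈ Subgroup.centralizer (D : Set G)) →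
      ∑ᶠ (σ : Finset (Subgroup G))
        (_ : IsChain (· ≤ ·) (σ : Set (Subgroup G)) ∧ ∀ P ∈ σ, IsPGroup p P ∧ P ≠ ⊥),
        (-1 : ℤ) ^ σ.card *
          ((Nat.card (⨅ P ∈ σ, Subgroup.normalizer (P : Set G) : Subgroup G) : ℤ) *
            kInd M χ (⨅ P ∈ σ, Subgroup.normalizer (P : Set G))) = 0 := by
  intro p hp G _ _ M hM hpM χ hχ D hD h0 hc h
  have : Fact p.Prime := ⟨hp⟩
  exact result p hp G M hM hpM χ hχ D hD h0 hc
    (Kx.relInertia_of_cyclic hp (St.IsDefectGroup.isPGroup' hD) h0 hc h)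

/-- The Knörr–Robinson identity, in the form of the problem, for every finite group with an
abelian Sylow `p`-subgroup `S` whose automizer `N(S) / C(S)` acts freely on the nontrivial
elements of `S` or is cyclic of prime power order. -/
theorem sylow_automizer :
    ∀ (p : ℕ), p.Prime → ∀ (G : Type) [Group G] [Finite G] (S : Sylow p G),
      (∀ x ∈ (S : Subgroup G), ∀ y ∈ (S : Subgroup G), x * y = y * x) →
      ((∀ n ∈ Subgroup.normalizer ((S : Subgroup G) : Set G), ∀ u ∈ (S : Subgroup G),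
          n * u = u * n → u = 1 ∨ n ∈ Subgroup.centralizer ((S : Subgroup G) : Set G)) ∨
        ∃ (s : G) (q k : ℕ), q.Prime ∧ q ≠ p ∧
          s ∈ Subgroup.normalizer ((S : Subgroup G) : Set G) ∧
          s ^ q ^ k ∈ Subgroup.centralizer ((S : Subgroup G) : Set G) ∧
          ∀ t ∈ Subgroup.normalizer ((S : Subgroup G) : Set G),
            ∃ i : ℕ, (s ^ i)⁻¹ * t ∈ Subgroup.centralizer ((S : Subgroup G) : Set G)) →
      (∑ᶠ (σ : Finset (Subgroup G))
          (_ : σ.Nonempty ∧ IsChain (· ≤ ·) (σ : Set (Subgroup G)) ∧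
                ∀ P ∈ σ, IsPGroup p P ∧ P ≠ ⊥),
          (-1 : ℤ) ^ (σ.card - 1) *
            (Nat.card {x : G × G // x.1 * x.2 = x.2 * x.1 ∧
                ∀ P ∈ σ, x.1 ∈ Subgroup.normalizer (P : Set G) ∧
                  x.2 ∈ Subgroup.normalizer (P : Set G)} : ℤ))
        = (Nat.card G : ℤ) *
          ((Nat.card (ConjClasses G) : ℤ) -
            (Nat.card {f : G → ℂ // ∃ n : ℕ, ∃ ρ : G →* Matrix (Fin n) (Fin n) ℂ,
                0 < n ∧ p ^ ((Nat.card G).factorization p) ∣ n ∧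
                (∀ W : Submodule ℂ (Fin n → ℂ),
                    (∀ g : G, ∀ v ∈ W, (ρ g).mulVec v ∈ W) → W = ⊥ ∨ W = ⊤) ∧
                f = fun g => (ρ g).trace} : ℤ)) := by
  intro p hp G _ _ S hc h
  have : Fact p.Prime := ⟨hp⟩
  let _ : Fintype (Finset (Subgroup G)) := Fintype.ofFinite _
  obtain ⟨M, hM, hpM⟩ := Kx.exists_max_ideal p hp
  refine Kx.krc_of_blocks p hp G M hM hpM fun χ hχ D hD h0 => ?_
  obtain ⟨h1, h2⟩ := Kx.relInertia_of_sylow (M := M) (χ := χ) hp S hc h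
    (St.IsDefectGroup.isPGroup' hD) h0
  have h3 := result p hp G M hM hpM χ hχ D hD h0 h1 h2
  rwa [Bi.finsum_eq_chain, ← Kx.KS_eq] at h3

end Pool.Agent.Results.MP_b6945b_al.FreeOnSubgroup
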