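import Pool.Agent.Lib.MP_b6945b_al.Kx.Final

set_option autoImplicit false

namespace Pool.Agent.Results.MP_b6945b_al.LargeExponent

open Pool.Agent.Lib.MP_b6945b_al

/-- For every prime `p` and every `n` there is `N` such that the blockwise Knörr–Robinson
alternating sum vanishes for every `p`-block whose defect group is abelian, generated by at most
`n` elements and of order greater than `N`.  The sum runs over all chains `σ` of nontrivial
`p`-subgroups, the empty chain included; the factor `|G_σ|` makes it `|G|` times the sum over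
`G`-orbits of chains. -/
theorem result :
    ∀ (p : ℕ), p.Prime → ∀ n : ℕ, ∃ N : ℕ, ∀ (G : Type) [Group G] [Finite G]
      (M : Ideal (integralClosure ℤ ℂ)), M.IsMaximal → (p : integralClosure ℤ ℂ) ∈ M →
      ∀ (χ : G → ℂ), IsIrrChar χ →
      ∀ (D : Subgroup G), IsDefectGroup p M χ D → (∀ x ∈ D, ∀ y ∈ D, x * y = y * x) →
      Group.rank D ≤ n → N < Nat.card D →
      ∑ᶠ (σ : Finset (Subgroup G))
        (_ : IsChain (· ≤ ·) (σ : Set (Subgroup G)) ∧ ∀ P ∈ σ, IsPGroup p P ∧ P ≠ ⊥),
        (-1 : ℤ) ^ σ.card *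
          ((Nat.card (⨅ P ∈ σ, Subgroup.normalizer (P : Set G) : Subgroup G) : ℤ) *
            kInd M χ (⨅ P ∈ σ, Subgroup.normalizer (P : Set G))) = 0 :=
  fun p hp n => Kx.kr_sum_large p hp n

end Pool.Agent.Results.MP_b6945b_al.LargeExponent
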