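import Pool.Agent.Lib.MP_b6945b_al.Kx.ZEnd

set_option autoImplicit false

namespace Pool.Agent.Results.MP_b6945b_al.RankTwo

open Pool.Agent.Lib.MP_b6945b_al

/-- The blockwise Knörr–Robinson alternating sum vanishes for every block whose defect group is
nontrivial, abelian and generated by at most two elements.  The sum runs over all chains `σ` of
nontrivial `p`-subgroups, the empty chain included; the factor `|G_σ|` makes it `|G|` times the
sum over `G`-orbits of chains. -/
theorem result :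
    ∀ (p : ℕ), p.Prime → ∀ (G : Type) [Group G] [Finite G]
      (M : Ideal (integralClosure ℤ ℂ)), M.IsMaximal → (p : integralClosure ℤ ℂ) ∈ M →
      ∀ (χ : G → ℂ), IsIrrChar χ →
      ∀ (D : Subgroup G), IsDefectGroup p M χ D → D ≠ ⊥ → (∀ x ∈ D, ∀ y ∈ D, x * y = y * x) →
      Group.rank D ≤ 2 →
      ∑ᶠ (σ : Finset (Subgroup G))
        (_ : IsChain (· ≤ ·) (σ : Set (Subgroup G)) ∧ ∀ P ∈ σ, IsPGroup p P ∧ P ≠ ⊥),
        (-1 : ℤ) ^ σ.card *
          ((Nat.card (⨅ P ∈ σ, Subgroup.normalizer (P : Set G) : Subgroup G) : ℤ) *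
            kInd M χ (⨅ P ∈ σ, Subgroup.normalizer (P : Set G))) = 0 :=
  fun p hp G _ _ M hM hpM χ hχ D hD h0 hc h2 =>
    Kx.kr_sum_two p hp G M hM hpM χ hχ D hD h0 hc h2

/-- The Knörr–Robinson identity, in the form of the problem, for every finite group with an
abelian Sylow `p`-subgroup generated by at most two elements. -/
theorem sylow_rank_two :
    ∀ (p : ℕ), p.Prime → ∀ (G : Type) [Group G] [Finite G] (S : Sylow p G),
      (∀ x ∈ (S : Subgroup G), ∀ y ∈ (S : Subgroup G), x * y = y * x) →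
      Group.rank (S : Subgroup G) ≤ 2 →
      (∑ᶠ (σ : Finset (Subgroup G))
          (_ : σ.Nonempty ∧ IsChain (· ≤ ·) (σ : Set (Subgroup G)) ∧
                ∀ P ∈ σ, IsPGroup p P ∧ P ≠ ⊥),
          (-1 : ℤ) ^ (σ.card - 1) *
            (Nat.card {x : G × G // x.1 * x.2 = x.2 * x.1 ∧
                ∀ P ∈ σ, x.1 ∈ Subgroup.normalizer (P : Set G) ∧
                  x.2 ∈ Subgroup.normalizer (P : Set G)} : ℤ))
        = (Nat.card G : ℤ) *
          ((Nat.card (ConjClasses G) : ℤ) -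
            (Nat.card {f : G → ℂ // ∃ n : ℕ, ∃ ρ : G →* Matrix (Fin n) (Fin n) ℂ,
                0 < n ∧ p ^ ((Nat.card G).factorization p) ∣ n ∧
                (∀ W : Submodule ℂ (Fin n → ℂ),
                    (∀ g : G, ∀ v ∈ W, (ρ g).mulVec v ∈ W) → W = ⊥ ∨ W = ⊤) ∧
                f = fun g => (ρ g).trace} : ℤ)) := by
  intro p hp G _ _ S hc h2
  obtain ⟨M, hM, hpM⟩ := Kx.exists_max_ideal p hp
  exact Kx.krc_of_blocks p hp G M hM hpM fun χ hχ D hD h0 =>
    Kx.KS_two p hp G M hM hpM χ hχ D hD h0 (Kx.defect_of_sylow hp S hc h2 hD).1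
      (Kx.defect_of_sylow hp S hc h2 hD).2

end Pool.Agent.Results.MP_b6945b_al.RankTwo
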