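import Pool.Agent.Lib.MP_b6945b_al.As.TLarge

set_option autoImplicit false

namespace Pool.Agent.Results.MP_b6945b_al.SimpleReduction

open Pool.Agent.Lib.MP_b6945b_al

/-- The identity of the problem for the group `G` and the prime `p`, in the frozen form. -/
def KRC (p : ℕ) (G : Type) [Group G] : Prop :=
  (∑ᶠ (σ : Finset (Subgroup G))
      (_ : σ.Nonempty ∧ IsChain (· ≤ ·) (σ : Set (Subgroup G)) ∧
            ∀ P ∈ σ, IsPGroup p P ∧ P ≠ ⊥),
      (-1 : ℤ) ^ (σ.card - 1) *
        (Nat.card {x : G × G // x.1 * x.2 = x.2 * x.1 ∧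
            ∀ P ∈ σ, x.1 ∈ Subgroup.normalizer (P : Set G) ∧
              x.2 ∈ Subgroup.normalizer (P : Set G)} : ℤ))
    = (Nat.card G : ℤ) *
      ((Nat.card (ConjClasses G) : ℤ) -
        (Nat.card {f : G → ℂ // ∃ n : ℕ, ∃ ρ : G →* Matrix (Fin n) (Fin n) ℂ,
            0 < n ∧ p ^ ((Nat.card G).factorization p) ∣ n ∧
            (∀ W : Submodule ℂ (Fin n → ℂ),
                (∀ g : G, ∀ v ∈ W, (ρ g).mulVec v ∈ W) → W = ⊥ ∨ W = ⊤) ∧
            f = fun g => (ρ g).trace} : ℤ))

/-- `S` is a section of `G`: a quotient of a subgroup of `G`. -/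
def IsSection (S G : Type) [Group S] [Group G] : Prop :=
  ∃ (B : Subgroup G) (φ : B →* S), Function.Surjective φ

/-- `D` is abelian and `x ^ p = 1` has at most `p ^ n` solutions in `D`.  For a finite `p`-group:
`D` is abelian of rank at most `n`. -/
def Ab (p n : ℕ) (D : Type) [Group D] : Prop :=
  (∀ x y : D, x * y = y * x) ∧ Nat.card {x : D // x ^ p = 1} ≤ p ^ n

/-- `D` is abelian and `N_A(D) / C_A(D)` has order at most `n`. -/
def SmallAut (n : ℕ) {A : Type} [Group A] (D : Subgroup A) : Prop :=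
  (∀ x ∈ D, ∀ y ∈ D, x * y = y * x) ∧
    (Subgroup.centralizer (D : Set A)).relIndex (Subgroup.normalizer (D : Set A)) ≤ n

/-- Every Sylow `p`-subgroup `D` of the centraliser of an element of `A` is abelian, and has rank
at most two, or has rank at most `n` and order greater than `N`, or `p > q` and `N_A(D) / C_A(D)`
has order at most `n`. -/
def Tame (p n q N : ℕ) (A : Type) [Group A] : Prop :=
  ∀ (x : A) (D : Sylow p (Subgroup.centralizer {x})),
    Ab p 2 D.toSubgroup ∨ (Ab p n D.toSubgroup ∧ N < Nat.card D.toSubgroup) ∨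
      (q < p ∧ SmallAut n (D.toSubgroup.map (Subgroup.centralizer {x}).subtype))

/-- `A` is almost simple with socle `S` (a non-abelian simple normal subgroup with trivial
centraliser), and `A / S` is abelian of order prime to `p` with at most two generators. -/
def AlmostSimple (p : ℕ) {A : Type} [Group A] [Finite A] (S : Subgroup A) [S.Normal] : Prop :=
  IsSimpleGroup S ∧ (∃ x ∈ S, ∃ y ∈ S, x * y ≠ y * x) ∧ Subgroup.centralizer (S : Set A) = ⊥ ∧
    (∀ x y : A ⧸ S, x * y = y * x) ∧ ¬ p ∣ S.index ∧ Group.rank (A ⧸ S) ≤ 2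

/-- `κ : H → A` is a stem extension (onto, kernel in the centre and in the commutator subgroup)
whose kernel is cyclic of order prime to `p`. -/
def StemCover (p : ℕ) {H A : Type} [Group H] [Group A] (κ : H →* A) : Prop :=
  Function.Surjective κ ∧ κ.ker ≤ Subgroup.center H ∧ κ.ker ≤ commutator H ∧ IsCyclic κ.ker ∧
    ¬ p ∣ Nat.card κ.ker

/-- For every `n` there is `q`, and for every prime `p` there is `N`, such that the following holds
for every finite group `G`.  Suppose that the Knörr–Robinson identity holds for every stem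
extension `H`, with cyclic kernel of order prime to `p`, of every almost simple section `A` of `G`
that is not tame and such that `A / S`, for the socle `S`, is abelian of order prime to `p` with at
most two generators.  Then it holds for `G`. -/
theorem result :
    ∀ n : ℕ, ∃ q : ℕ, ∀ (p : ℕ), p.Prime → ∃ N : ℕ, ∀ (G : Type) [Group G] [Finite G],
      (∀ (A : Type) [Group A] [Finite A] (S : Subgroup A) [S.Normal],
        AlmostSimple p S → IsSection A G → ¬ Tame p n q N A →
        ∀ (H : Type) [Group H] [Finite H] (κ : H →* A), StemCover p κ → KRC p H) →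
      KRC p G := by
  intro n
  obtain ⟨q, hq⟩ := Ip.reduction7 n
  refine ⟨q, fun p hp => ?_⟩
  obtain ⟨N, hN⟩ := hq p hp
  refine ⟨N, fun G _ _ h => (Ip.KR_iff p G).1
    (hN G fun A _ _ S _ a1 a2 a3 a4 a5 a6 a7 a8 H _ _ κ b => ?_)⟩
  exact (Ip.KR_iff p H).2 (h A S ⟨a1, a2, a3, a4, a5, a6⟩ a7 a8 H κ b)

/-- For large primes the identity holds if the `p`-subgroups of the almost simple sections are
abelian with automizers of bounded order. -/
theorem large_prime (n : ℕ) : ∃ q : ℕ, ∀ (p : ℕ), p.Prime → q < p →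
    ∀ (G : Type) [Group G] [Finite G],
      (∀ (A : Type) [Group A] [Finite A] (S : Subgroup A) [S.Normal], AlmostSimple p S →
        IsSection A G → ∀ D : Subgroup A, IsPGroup p D → SmallAut n D) → KRC p G := by
  obtain ⟨q, hq⟩ := result n
  refine ⟨q, fun p hp hlt G _ _ h => ?_⟩
  obtain ⟨N, hN⟩ := hq p hp
  exact hN G fun A _ _ S _ a b c =>
    absurd (fun x D => Or.inr (Or.inr ⟨hlt, h A S a b _ (D.isPGroup'.map _)⟩)) c

/-- The form in which only the socle is a section of `G`, without the third kind of tameness. -/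
theorem socle_form (p : ℕ) (hp : p.Prime) (n : ℕ) : ∃ N : ℕ, ∀ (G : Type) [Group G] [Finite G],
    (∀ (A : Type) [Group A] [Finite A] (S : Subgroup A) [S.Normal],
      AlmostSimple p S → IsSection S G →
      (¬ ∀ (x : A) (D : Sylow p (Subgroup.centralizer {x})),
        Ab p 2 D.toSubgroup ∨ (Ab p n D.toSubgroup ∧ N < Nat.card D.toSubgroup)) →
      ∀ (H : Type) [Group H] [Finite H] (κ : H →* A), StemCover p κ → KRC p H) → KRC p G := by
  obtain ⟨q, hq⟩ := result n
  obtain ⟨N, hN⟩ := hq p hp
  exact ⟨N, fun G _ _ h => hN G fun A _ _ S _ a b c =>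
    h A S a (Ip.sec_sub S b) fun d => c fun x D => (d x D).imp_right Or.inl⟩

/-- A Sylow `p`-subgroup of `S` is abelian and generated by at most two elements. -/
def SmallSylow (p : ℕ) (S : Type) [Group S] [Finite S] : Prop :=
  ∃ P : Sylow p S, (∀ x ∈ P.toSubgroup, ∀ y ∈ P.toSubgroup, x * y = y * x) ∧
    Group.rank P.toSubgroup ≤ 2

/-- If the socle has abelian Sylow `p`-subgroups of rank at most two, `A` is tame for all `n`,
`q` and `N`. -/
theorem tame_of_smallSylow (p n q N : ℕ) (hp : p.Prime) (A : Type) [Group A] [Finite A]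
    (S : Subgroup A) [S.Normal] (h : AlmostSimple p S) (hs : SmallSylow p S) : Tame p n q N A :=
  have : Fact p.Prime := ⟨hp⟩
  hs.elim fun P hP => Ip.tame_of_small n q N S h.2.2.2.2.1 P hP.1 hP.2

/-- The reduction without `n`, `q` and `N`. -/
theorem reduction (p : ℕ) (hp : p.Prime) (G : Type) [Group G] [Finite G]
    (h : ∀ (A : Type) [Group A] [Finite A] (S : Subgroup A) [S.Normal],
      AlmostSimple p S → IsSection A G → ¬ SmallSylow p S →
      ∀ (H : Type) [Group H] [Finite H] (κ : H →* A), StemCover p κ → KRC p H) : KRC p G := by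
  obtain ⟨q, hq⟩ := result 0
  obtain ⟨N, hN⟩ := hq p hp
  exact hN G fun A _ _ S _ a b c =>
    h A S a b fun d => c (tame_of_smallSylow p 0 q N hp A S a d)

/-- The identity holds if every non-abelian simple section has abelian Sylow `p`-subgroups of rank
at most two. -/
theorem sections (p : ℕ) (hp : p.Prime) (G : Type) [Group G] [Finite G]
    (h : ∀ (S : Type) [Group S] [Finite S], IsSimpleGroup S → (∃ x y : S, x * y ≠ y * x) →
      IsSection S G → SmallSylow p S) : KRC p G :=
  reduction p hp G fun _ _ _ S _ ⟨a, ⟨x, hx, y, hy, e⟩, _⟩ b c =>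
    absurd (h S a ⟨⟨x, hx⟩, ⟨y, hy⟩, fun e' => e (congrArg Subtype.val e')⟩ (Ip.sec_sub S b)) c

/-- The identity holds for every finite group with a subnormal series each of whose factors is
solvable or has an abelian Sylow `p`-subgroup generated by two elements. -/
theorem composition_factors (p : ℕ) (hp : p.Prime) (G : Type) [Group G] [Finite G] (r : ℕ)
    (s : ℕ → Subgroup G) [∀ i, ((s i).subgroupOf (s (i + 1))).Normal] (h0 : s 0 = ⊥)
    (hr : s r = ⊤) (hs : ∀ i < r, s i ≤ s (i + 1) ∧
      (Group.IsSolvable (s (i + 1) ⧸ (s i).subgroupOf (s (i + 1))) ∨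
        ∃ S : Sylow p (s (i + 1) ⧸ (s i).subgroupOf (s (i + 1))),
          (∀ x ∈ S.toSubgroup, ∀ y ∈ S.toSubgroup, x * y = y * x) ∧
            Group.rank S.toSubgroup ≤ 2)) : KRC p G :=
  have : Fact p.Prime := ⟨hp⟩
  (Ip.KR_iff p G).1 (Ip.KR_of_hyp (Ip.hyp_of_series r s h0 hr fun i hi =>
    (hs i hi).imp_right (Or.imp_right fun ⟨S, h1, h2⟩ => Ip.abR_of_syl S h1 h2)))

/-- The identity holds for every finite group with a subnormal series each of whose factors is
solvable or has order not divisible by `p ^ 3`. -/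
theorem cube_free (p : ℕ) (hp : p.Prime) (G : Type) [Group G] [Finite G] (r : ℕ)
    (s : ℕ → Subgroup G) [∀ i, ((s i).subgroupOf (s (i + 1))).Normal] (h0 : s 0 = ⊥)
    (hr : s r = ⊤) (hs : ∀ i < r, s i ≤ s (i + 1) ∧
      (Group.IsSolvable (s (i + 1) ⧸ (s i).subgroupOf (s (i + 1))) ∨
        ¬ p ^ 3 ∣ (s i).relIndex (s (i + 1)))) : KRC p G :=
  have : Fact p.Prime := ⟨hp⟩
  (Ip.KR_iff p G).1 (Ip.KR_of_hyp (Ip.hyp_of_series r s h0 hr fun i hi =>
    (hs i hi).imp_right (Or.imp_right Ip.abR_of_card)))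

end Pool.Agent.Results.MP_b6945b_al.SimpleReduction
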